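import Mathlib

namespace Pool.Agent.Results.MP_ed16aa_pr.Unique
open MeasureTheory ProbabilityTheory Set Filter
open scoped ENNReal Topology

/-- payoff of the draw `x` against `Y ∼ g`: `P(Y < x) + P(Y = x) / 2` -/
noncomputable def pay (g : Measure ℝ) (x : ℝ) : ℝ := g.real (Iio x) + g.real {x} / 2

/-- `H(ν) = P(X > Y) + P(X = Y) / 2` for independent `X ∼ ν`, `Y ∼ g` -/
noncomputable def H (g ν : Measure ℝ) : ℝ := ∫ x, pay g x ∂ν

/-- `ν` is a probability distribution on `[0,∞)` with mean `y` -/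
def Feas (y : ℝ) (ν : Measure ℝ) : Prop :=
  IsProbabilityMeasure ν ∧ ν (Iio 0) = 0 ∧ Integrable id ν ∧ ∫ x, x ∂ν = y

/-- players `(I, lam)` with budgets `b` of law `B` and strategies `f` form a Nash equilibrium;
the aggregate strategy is `f ∘ₘ lam` -/
structure Equil (B : Measure ℝ) {I : Type} [MeasurableSpace I] (lam : Measure I) (b : I → ℝ)
    (f : Kernel I ℝ) : Prop where
  prob : IsProbabilityMeasure lam
  markov : IsMarkovKernel f
  meas : Measurable b
  law : lam.map b = B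
  opt : ∀ᵐ i ∂lam, Feas (b i) (f i) ∧ ∀ ν, Feas (b i) ν → H (f ∘ₘ lam) ν ≤ H (f ∘ₘ lam) (f i)

lemma slope {h : ℝ → ℝ} {y v : ℝ} (hy : 0 < y) (h0 : h y ≤ v)
    (h1 : ∀ a b, 0 ≤ a → a < y → y < b → (b - y) * h a + (y - a) * h b ≤ (b - a) * v) :
    ∃ s, ∀ z, 0 ≤ z → h z ≤ v + s * (z - y) := by
  have key : ∀ a, 0 ≤ a → a < y → (v - h a) / (y - a) ∈
      upperBounds ((fun b => (h b - v) / (b - y)) '' Ioi y) := by
    rintro a ha hay _ ⟨b, hb : y < b, rfl⟩
    rw [div_le_div_iff₀ (by linarith) (by linarith)]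
    linarith [h1 a b ha hay hb]
  refine ⟨sSup ((fun b => (h b - v) / (b - y)) '' Ioi y), fun z hz => ?_⟩
  rcases lt_trichotomy z y with h2 | rfl | h2
  · have := csSup_le (nonempty_Ioi.image _) (key z hz h2)
    rw [le_div_iff₀ (by linarith)] at this
    linarith
  · simpa using h0
  · have := le_csSup ⟨_, key 0 le_rfl hy⟩ (mem_image_of_mem _ (mem_Ioi.2 h2))
    rw [div_le_iff₀ (by linarith)] at this
    linarith

lemma Feas.nn {y : ℝ} {ν : Measure ℝ} (h : Feas y ν) : ∀ᵐ x ∂ν, 0 ≤ x := by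
  simpa [ae_iff, Iio] using h.2.1

lemma contact {h : ℝ → ℝ} {y v s : ℝ} {ν : Measure ℝ} (hν : Feas y ν) (hi : Integrable h ν)
    (h1 : ∀ z, 0 ≤ z → h z ≤ v + s * (z - y)) :
    ∫ x, h x ∂ν ≤ v ∧ (v ≤ ∫ x, h x ∂ν → ∀ᵐ x ∂ν, h x = v + s * (x - y)) := by
  have := hν.1
  have i0 : Integrable (fun x : ℝ => x - y) ν := hν.2.2.1.sub (integrable_const y)
  have i1 : Integrable (fun x => v + s * (x - y)) ν := (integrable_const v).add (i0.const_mul s)
  have e : ∫ x, v + s * (x - y) ∂ν = v := by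
    rw [integral_add (integrable_const v) (i0.const_mul s), integral_const_mul,
      integral_sub (f := fun x => x) hν.2.2.1 (integrable_const y), hν.2.2.2]
    simp
  have h2 := hν.nn.mono h1
  have h3 := (integral_mono_ae hi i1 h2).trans_eq e
  exact ⟨h3, fun h4 => (integral_eq_iff_of_ae_le hi i1 h2).1 ((le_antisymm h3 h4).trans e.symm)⟩

lemma one_pt (g : Measure ℝ) {y : ℝ} (hy : 0 < y) :
    Feas y (.dirac y) ∧ H g (.dirac y) = pay g y :=
  ⟨⟨inferInstance, by simp [hy.le], integrable_dirac (by simp), by simp⟩, by simp [H]⟩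

lemma two_pt (g : Measure ℝ) {a y c : ℝ} (ha : 0 ≤ a) (h2 : a < y) (h3 : y < c) :
    ∃ ν, Feas y ν ∧ (c - a) * H g ν = (c - y) * pay g a + (y - a) * pay g c := by
  have p1 : 0 ≤ (c - y) / (c - a) := div_nonneg (by linarith) (by linarith)
  have p2 : 0 ≤ (y - a) / (c - a) := div_nonneg (by linarith) (by linarith)
  have hca : c - a ≠ 0 := by linarith
  have hI : ∀ (r x : ℝ) (φ : ℝ → ℝ), Integrable φ (ENNReal.ofReal r • Measure.dirac x) :=
    fun r x φ => (integrable_dirac (by simp)).smul_measure ENNReal.ofReal_ne_top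
  have e : ∀ φ : ℝ → ℝ, (c - a) * ∫ x, φ x ∂(ENNReal.ofReal ((c - y) / (c - a)) • .dirac a +
      ENNReal.ofReal ((y - a) / (c - a)) • .dirac c) = (c - y) * φ a + (y - a) * φ c := fun φ => by
    rw [integral_add_measure (hI _ _ _) (hI _ _ _)]
    simp only [integral_smul_measure, integral_dirac, ENNReal.toReal_ofReal p1,
      ENNReal.toReal_ofReal p2, smul_eq_mul]
    field_simp
  refine ⟨_, ⟨⟨?_⟩, ?_, (hI _ _ _).add_measure (hI _ _ _), ?_⟩, e _⟩
  · simp [← ENNReal.ofReal_add p1 p2, ← add_div, hca]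
  · simp [ha, show 0 ≤ c by linarith]
  · exact mul_left_cancel₀ hca ((e fun x => x).trans (by ring))

section
variable (g : Measure ℝ) [IsProbabilityMeasure g]

lemma pay_jump {x z : ℝ} (h : x < z) : pay g x + g.real {x} / 2 ≤ pay g z := by
  have h1 : g.real (Iic x) = g.real (Iio x) + g.real {x} := by
    rw [← measureReal_union (by simp) (measurableSet_singleton x), Iio_union_right]
  have h2 : g.real (Iic x) ≤ g.real (Iio z) := measureReal_mono (Iic_subset_Iio.2 h)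
  have h3 : 0 ≤ g.real {z} := measureReal_nonneg
  unfold pay; linarith

lemma pay_mono : Monotone (pay g) := fun x z h => h.eq_or_lt.elim (fun e => e ▸ le_rfl) fun h =>
  le_trans (le_add_of_nonneg_right (by positivity)) (pay_jump g h)

lemma pay_mem (x : ℝ) : pay g x ∈ Icc (0 : ℝ) 2 := by
  have := measureReal_le_one (μ := g) (s := Iio x)
  have := measureReal_le_one (μ := g) (s := {x})
  exact ⟨by unfold pay; positivity, by unfold pay; linarith⟩

lemma pay_int (ν : Measure ℝ) [IsFiniteMeasure ν] : Integrable (pay g) ν :=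
  .of_mem_Icc 0 2 (pay_mono g).measurable.aemeasurable (.of_forall (pay_mem g))

variable [NullSingletonClass g]

omit [IsProbabilityMeasure g] in
lemma pay_eq (x : ℝ) : pay g x = g.real (Iic x) := by
  simp [pay, Measure.real, measure_congr (Iio_ae_eq_Iic (μ := g) (a := x))]

lemma cont : Continuous (pay g) := by
  simp only [funext (pay_eq g), ← cdf_eq_real]
  refine continuous_iff_continuousAt.2 fun x =>
    (monotone_cdf g).continuousAt_iff_leftLim_eq_rightLim.2 ?_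
  have h := (cdf g).measure_singleton x
  rw [measure_cdf, measure_singleton, eq_comm, ENNReal.ofReal_eq_zero] at h
  rw [(cdf g).rightLim_eq]
  exact le_antisymm ((monotone_cdf g).leftLim_le le_rfl) (by linarith)

lemma zero_sum (g' : Measure ℝ) [IsProbabilityMeasure g'] [NullSingletonClass g'] :
    H g g' + H g' g = 1 := by
  have hm : MeasurableSet {p : ℝ × ℝ | p.2 ≤ p.1} := measurableSet_le measurable_snd measurable_fst
  have hi : Integrable (Function.uncurry fun x y : ℝ =>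
      {p : ℝ × ℝ | p.2 ≤ p.1}.indicator (fun _ => (1 : ℝ)) (x, y)) (g'.prod g) :=
    (integrable_const 1).indicator hm
  have e := integral_integral_swap hi
  have e1 : ∀ x, ∫ y, {p : ℝ × ℝ | p.2 ≤ p.1}.indicator (fun _ => (1 : ℝ)) (x, y) ∂g = pay g x :=
    fun x => by rw [pay_eq, ← integral_indicator_one measurableSet_Iic]; rfl
  have e2 : ∀ y, ∫ x, {p : ℝ × ℝ | p.2 ≤ p.1}.indicator (fun _ => (1 : ℝ)) (x, y) ∂g' =
      1 - pay g' y := fun y => by
    rw [pay_eq, ← measureReal_congr Iio_ae_eq_Iic, ← probReal_compl_eq_one_sub measurableSet_Iio,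
      compl_Iio, ← integral_indicator_one measurableSet_Ici]; rfl
  simp only [e1, e2] at e
  rw [H, e, integral_sub (integrable_const 1) (pay_int g' g), H]
  simp
end

def Conc (G : ℝ → ℝ) : Prop :=
  ∀ c a b, 0 ≤ a → a < c → c < b → (b - c) * G a + (c - a) * G b ≤ (b - a) * G c

namespace Equil
variable {B : Measure ℝ} (hB : B (Iic 0) = 0) {I I' : Type} [MeasurableSpace I]
  [MeasurableSpace I'] {lam : Measure I} {b : I → ℝ} {f : Kernel I ℝ} {lam' : Measure I'}
  {b' : I' → ℝ} {f' : Kernel I' ℝ} (h : Equil B lam b f)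
include h

lemma gprob : IsProbabilityMeasure (f ∘ₘ lam) := by
  have := h.prob; have := h.markov; infer_instance

omit h in
lemma int_comp {φ : ℝ → ℝ} (hφ : Integrable φ (f ∘ₘ lam)) :
    Integrable (fun i => ∫ x, φ x ∂f i) lam ∧ ∫ x, φ x ∂(f ∘ₘ lam) = ∫ i, ∫ x, φ x ∂f i ∂lam := by
  rw [Measure.comp_eq_comp_const_apply] at hφ ⊢
  exact ⟨hφ.integral_comp, Kernel.integral_comp hφ⟩

include hB

lemma bpos : ∀ᵐ i ∂lam, 0 < b i :=
  ae_of_ae_map h.meas.aemeasurable (p := fun y => 0 < y) (by simpa [h.law, ae_iff, Iic] using hB)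

lemma null {N : Set ℝ} (hN : MeasurableSet N) (h1 : ∀ x ∈ N, 0 ≤ x → ∀ s, ¬ ∀ z, 0 ≤ z →
    pay (f ∘ₘ lam) z ≤ pay (f ∘ₘ lam) x + s * (z - x)) : (f ∘ₘ lam) N = 0 := by
  have := h.gprob
  rw [Measure.bind_apply hN f.aemeasurable, lintegral_congr_ae (g := 0), lintegral_zero_fun]
  filter_upwards [h.opt, h.bpos hB] with i ⟨hf, ho⟩ hp
  have := hf.1
  obtain ⟨s, hs⟩ := slope (h := pay (f ∘ₘ lam)) (v := H (f ∘ₘ lam) (f i)) hp
    ((one_pt _ hp).2.symm.trans_le (ho _ (one_pt (f ∘ₘ lam) hp).1)) fun a c ha h2 h3 => by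
    obtain ⟨ν, h4, h5⟩ := two_pt (f ∘ₘ lam) ha h2 h3
    rw [← h5]
    exact mul_le_mul_of_nonneg_left (ho ν h4) (by linarith)
  refine measure_eq_zero_iff_ae_notMem.2 ?_
  filter_upwards [(contact hf (pay_int _ _) hs).2 le_rfl, hf.nn] with x hx h0 hxN
  exact h1 x hxN h0 s fun z hz => by linarith [hs z hz]

lemma atom : NullSingletonClass (f ∘ₘ lam) := ⟨fun x => by
  have := h.gprob
  by_contra h0
  refine h0 (h.null hB (measurableSet_singleton x) ?_)
  rintro x rfl hx s hs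
  have hp : 0 < (f ∘ₘ lam).real {x} := ENNReal.toReal_pos h0 (measure_ne_top _ _)
  have : Tendsto (fun z => s * (z - x)) (𝓝[>] x) (𝓝 (s * (x - x))) :=
    (by fun_prop : Continuous fun z => s * (z - x)).continuousWithinAt
  have := ge_of_tendsto this (b := (f ∘ₘ lam).real {x} / 2) (mem_of_superset self_mem_nhdsWithin
    fun z (hz : x < z) => show _ ≤ s * (z - x) by
      linarith [hs z (by linarith), pay_jump (f ∘ₘ lam) hz])
  linarith⟩

lemma conc : Conc (pay (f ∘ₘ lam)) := by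
  have := h.gprob; have := h.atom hB
  intro c a d ha h1 h2
  set G := pay (f ∘ₘ lam)
  have hG : Continuous G := cont _
  by_contra hc
  obtain ⟨r, ⟨hr, hcr⟩, hm⟩ : ∃ r, IsLeast ({x | (d - x) * G a + (x - a) * G d ≤ (d - a) * G x} ∩
      Icc c d) r := ⟨_, ((isClosed_le (by fun_prop) (by fun_prop)).inter
        isClosed_Icc).isLeast_csInf ⟨d, by simp, h2.le, le_rfl⟩ ⟨c, fun _ h => h.2.1⟩⟩
  have h3 := h.null hB (measurableSet_Ioo (a := c) (b := r)) fun x hx h0 s hs => by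
    refine not_le.2 hx.2 (hm ⟨?_, hx.1.le, hx.2.le.trans hcr.2⟩)
    have := mul_le_mul_of_nonneg_left (hs a ha) (show 0 ≤ d - x by linarith [hx.2, hcr.2])
    have := mul_le_mul_of_nonneg_left (hs d (by linarith)) (show 0 ≤ x - a by linarith [hx.1])
    simp only [mem_ofPred_eq]; linarith
  have h4 : G r = G c := by
    simp only [G, pay_eq]
    rw [← Iic_union_Ioc_eq_Iic hcr.1, measureReal_union (by simp) measurableSet_Ioc,
      ← measureReal_congr Ioo_ae_eq_Ioc, Measure.real, Measure.real, h3]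
    simp
  have h5 : G a ≤ G d := pay_mono _ (by linarith)
  simp only [mem_ofPred_eq, h4] at hr
  exact hc (by nlinarith [hcr.1])

lemma cross (h' : Equil B lam' b' f') :
    H (f ∘ₘ lam) (f' ∘ₘ lam') ≤ ∫ y, pay (f ∘ₘ lam) y ∂B ∧ ∫ y, pay (f ∘ₘ lam) y ∂B ≤ 1 / 2 ∧
    (∫ y, pay (f ∘ₘ lam) y ∂B ≤ H (f ∘ₘ lam) (f' ∘ₘ lam') → ∀ᵐ i ∂lam', ∃ s, (∀ z, 0 ≤ z →
      pay (f ∘ₘ lam) z ≤ pay (f ∘ₘ lam) (b' i) + s * (z - b' i)) ∧
      ∀ᵐ x ∂f' i, pay (f ∘ₘ lam) x = pay (f ∘ₘ lam) (b' i) + s * (x - b' i)) := by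
  have := h.gprob; have := h'.gprob; have := h.atom hB; have := h.prob; have := h'.prob
  have := h'.markov
  set G := pay (f ∘ₘ lam)
  have hm : Measurable G := (pay_mono _).measurable
  have i1 : Integrable (fun i => G (b' i)) lam' :=
    .of_mem_Icc 0 2 (hm.comp h'.meas).aemeasurable (.of_forall fun _ => pay_mem _ _)
  have i2 : Integrable (fun i => G (b i)) lam :=
    .of_mem_Icc 0 2 (hm.comp h.meas).aemeasurable (.of_forall fun _ => pay_mem _ _)
  have e1 : ∫ y, G y ∂B = ∫ i, G (b' i) ∂lam' := by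
    rw [← h'.law, integral_map h'.meas.aemeasurable hm.aestronglyMeasurable]
  have e2 : ∫ y, G y ∂B = ∫ i, G (b i) ∂lam := by
    rw [← h.law, integral_map h.meas.aemeasurable hm.aestronglyMeasurable]
  have a1 : ∀ᵐ i ∂lam', ∃ s, ∀ z, 0 ≤ z → G z ≤ G (b' i) + s * (z - b' i) :=
    (h'.bpos hB).mono fun i hi => slope hi le_rfl (h.conc hB _)
  have a2 : ∀ᵐ i ∂lam', ∫ x, G x ∂f' i ≤ G (b' i) := by
    filter_upwards [a1, h'.opt] with i ⟨s, hs⟩ hf using (contact hf.1 (pay_int _ _) hs).1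
  obtain ⟨j1, j2⟩ := int_comp (f := f') (lam := lam') (pay_int (f ∘ₘ lam) _)
  obtain ⟨k1, k2⟩ := int_comp (f := f) (lam := lam) (pay_int (f ∘ₘ lam) _)
  have h1 := integral_mono_ae j1 i1 a2
  refine ⟨by rwa [H, j2, e1], ?_, fun h2 => ?_⟩
  · have := zero_sum (f ∘ₘ lam) (f ∘ₘ lam)
    rw [show (1 / 2 : ℝ) = H (f ∘ₘ lam) (f ∘ₘ lam) by linarith, H, k2, e2]
    refine integral_mono_ae i2 k1 ?_
    filter_upwards [h.opt, h.bpos hB] with i hi hp
    exact (one_pt _ hp).2.symm.trans_le (hi.2 _ (one_pt (f ∘ₘ lam) hp).1)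
  · rw [H, j2, e1] at h2
    filter_upwards [a1, h'.opt, (integral_eq_iff_of_ae_le j1 i1 a2).1 (le_antisymm h1 h2)]
      with i ⟨s, hs⟩ hf he using ⟨s, hs, (contact hf.1 (pay_int _ _) hs).2 he.ge⟩

lemma strict (h' : Equil B lam' b' f') {t : ℝ} (ht : ∀ a d, 0 ≤ a → a < t → t < d →
    (d - t) * pay (f ∘ₘ lam) a + (t - a) * pay (f ∘ₘ lam) d < (d - a) * pay (f ∘ₘ lam) t) :
    pay (f' ∘ₘ lam') t = B.real (Iic t) := by
  have := h.gprob; have := h'.gprob; have := h.atom hB; have := h'.atom hB; have := h'.prob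
  have := h'.markov
  have : IsProbabilityMeasure B := h'.law ▸ Measure.isProbabilityMeasure_map h'.meas.aemeasurable
  have hz := zero_sum (f ∘ₘ lam) (f' ∘ₘ lam')
  obtain ⟨c1, c2, c3⟩ := h.cross hB h'
  obtain ⟨c4, c5, -⟩ := h'.cross hB h
  set G := pay (f ∘ₘ lam)
  have key : ∀ᵐ i ∂lam', (b' i ≤ t → ∀ᵐ x ∂f' i, x ≤ t) ∧ (t < b' i → ∀ᵐ x ∂f' i, t ≤ x) := by
    filter_upwards [c3 (by linarith), h'.opt, h'.bpos hB] with i ⟨s, hs, hc⟩ ⟨hf, _⟩ hp
    have two : ∀ a d, 0 ≤ a → a < t → t < d → G a = G (b' i) + s * (a - b' i) →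
        G d = G (b' i) + s * (d - b' i) → False := fun a d ha h1 h2 h3 h4 => by
      have := ht a d ha h1 h2
      have := mul_le_mul_of_nonneg_left (hs t (by linarith)) (show 0 ≤ d - a by linarith)
      rw [h3, h4] at *; linarith
    refine ⟨fun h1 => ?_, fun h1 => ?_⟩
    · by_cases h2 : ∃ a, 0 ≤ a ∧ a < t ∧ G a = G (b' i) + s * (a - b' i)
      · obtain ⟨a, h2, h3, h4⟩ := h2
        exact hc.mono fun x hx => not_lt.1 fun h5 => two a x h2 h3 h5 h4 hx
      · have h3 : ∀ᵐ x ∂f' i, t ≤ x := by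
          filter_upwards [hc, hf.nn] with x hx h0 using not_lt.1 fun h5 => h2 ⟨x, h0, h5, hx⟩
        have h4 := integral_mono_ae (integrable_const t) hf.2.2.1 h3
        refine ((integral_eq_iff_of_ae_le (integrable_const t) hf.2.2.1 h3).1
          (le_antisymm h4 ?_)).mono fun x hx => hx.ge
        simpa [hf.2.2.2] using h1
    · filter_upwards [hc, hf.nn] with x hx h0 using
        not_lt.1 fun h5 => two x _ h0 h5 h1 hx (by simp)
  have low : ∀ s u : Set ℝ, MeasurableSet s → MeasurableSet u →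
      (∀ᵐ i ∂lam', b' i ∈ s → ∀ᵐ x ∂f' i, x ∈ u) → B.real s ≤ (f' ∘ₘ lam').real u := by
    intro s u hs hu h1
    refine ENNReal.toReal_mono (measure_ne_top _ _) ?_
    rw [← h'.law, Measure.map_apply h'.meas hs, Measure.bind_apply hu f'.aemeasurable,
      ← lintegral_indicator_one (h'.meas hs)]
    refine lintegral_mono_ae (h1.mono fun i hi => indicator_apply_le' (fun h2 => ?_) fun _ => bot_le)
    exact ((prob_compl_eq_zero_iff hu).1 (hi h2)).ge
  have l1 := low _ _ measurableSet_Iic measurableSet_Iic (key.mono fun i hi => hi.1)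
  have l2 := low _ _ measurableSet_Ioi measurableSet_Ici (key.mono fun i hi => hi.2)
  rw [← measureReal_congr Ioi_ae_eq_Ici, ← compl_Iic, probReal_compl_eq_one_sub measurableSet_Iic,
    probReal_compl_eq_one_sub measurableSet_Iic] at l2
  rw [pay_eq]; linarith

lemma le (h' : Equil B lam' b' f') {c : ℝ} (hc : 0 < c) :
    pay (f ∘ₘ lam) c ≤ pay (f' ∘ₘ lam') c := by
  have := h.gprob; have := h'.gprob; have := h.atom hB
  have eq := fun t ht => (h.strict hB h' (t := t) ht).trans (h.strict hB h ht).symm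
  have hc' := h'.conc hB c
  have hm := pay_mono (f' ∘ₘ lam')
  obtain ⟨s, hs⟩ := slope hc le_rfl (h.conc hB c)
  have h2 := pay_mem (f ∘ₘ lam)
  have hG := cont (f ∘ₘ lam)
  set G := pay (f ∘ₘ lam)
  set G' := pay (f' ∘ₘ lam')
  have hK : IsClosed ({x | G x = G c + s * (x - c)} ∩ Ici 0) :=
    (isClosed_eq hG (by fun_prop)).inter isClosed_Ici
  have hcK : c ∈ {x | G x = G c + s * (x - c)} ∩ Ici 0 := ⟨by simp, hc.le⟩
  obtain ⟨l, ⟨hl : G l = _, hl0 : 0 ≤ l⟩, hl'⟩ := (⟨_, hK.isLeast_csInf ⟨c, hcK⟩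
    ⟨0, fun _ h => h.2⟩⟩ : ∃ l, IsLeast _ l)
  have e1 : G' l = G l := eq l fun a d ha h3 h4 => by
    have := mul_lt_mul_of_pos_left ((hs a ha).lt_of_ne fun e => not_le.2 h3 (hl' ⟨e, ha⟩))
      (sub_pos.2 h4)
    have := mul_le_mul_of_nonneg_left (hs d (by linarith)) (sub_pos.2 h3).le
    rw [hl]; linarith
  have hlc := hl' hcK
  rcases le_or_gt s 0 with h3 | h3
  · nlinarith [hm hlc]
  obtain ⟨r, ⟨hr : G r = _, hr0 : 0 ≤ r⟩, hr'⟩ := (⟨_, hK.isGreatest_csSup ⟨c, hcK⟩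
    ⟨c + 2 / s, fun x hx => by
      have : G x = _ := hx.1
      rw [← sub_le_iff_le_add', le_div_iff₀ h3]
      linarith [(h2 x).2, (h2 c).1]⟩⟩ : ∃ l, IsGreatest _ l)
  have e2 : G' r = G r := eq r fun a d ha h3 h4 => by
    have := mul_lt_mul_of_pos_left ((hs d (by linarith)).lt_of_ne fun e =>
      not_le.2 h4 (hr' ⟨e, show 0 ≤ d by linarith⟩)) (sub_pos.2 h3)
    have := mul_le_mul_of_nonneg_left (hs a ha) (sub_pos.2 h4).le
    rw [hr]; linarith
  rcases hlc.eq_or_lt with rfl | h4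
  · exact e1.ge
  rcases (hr' hcK).eq_or_lt with rfl | h5
  · exact e2.ge
  have := hc' l r hl0 h4 h5
  rw [e1, e2, hl, hr] at this
  exact le_of_mul_le_mul_left (by linarith) (show 0 < r - l by linarith)
end Equil

theorem result (B : Measure ℝ) (hB : B (Iic 0) = 0) (I I' : Type) [MeasurableSpace I]
    [MeasurableSpace I'] (lam : Measure I) (b : I → ℝ) (f : Kernel I ℝ) (lam' : Measure I')
    (b' : I' → ℝ) (f' : Kernel I' ℝ) (h : Equil B lam b f) (h' : Equil B lam' b' f') :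
    f ∘ₘ lam = f' ∘ₘ lam' := by
  have := h.gprob; have := h'.gprob; have := h.atom hB; have := h'.atom hB
  have z : ∀ {I : Type} [MeasurableSpace I] {lam : Measure I} {b : I → ℝ} {f : Kernel I ℝ},
      Equil B lam b f → ∀ x ≤ 0, (f ∘ₘ lam) (Iic x) = 0 := fun h x hx => by
    have := h.atom hB
    refine measure_mono_null (Iic_subset_Iic.2 hx) ?_
    rw [← measure_congr Iio_ae_eq_Iic, Measure.bind_apply measurableSet_Iio (Kernel.aemeasurable _),
      lintegral_congr_ae (h.opt.mono fun i hi => hi.1.2.1), lintegral_zero]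
  refine Measure.ext_of_Iic _ _ fun x => ?_
  rcases le_or_gt x 0 with hx | hx
  · rw [z h x hx, z h' x hx]
  · have := le_antisymm (h.le hB h' hx) (h'.le hB h hx)
    rw [pay_eq, pay_eq] at this
    exact (ENNReal.toReal_eq_toReal_iff' (measure_ne_top _ _) (measure_ne_top _ _)).1 this

end Pool.Agent.Results.MP_ed16aa_pr.Unique
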